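import Pool.Agent.W770.PC.Asm5
import Pool.Agent.H789R2.FR.Defs

set_option autoImplicit false

/-! Transfer of the theorem on polygons to Euclidean spaces. -/

open MeasureTheory Set Filter Topology
open scoped ENNReal NNReal RealInnerProductSpace

namespace Pool.Agent.W770.PC

open Pool.Agent.H789R2.FR (E)

/-- the extension operator of the paraboloid -/
noncomputable def exo (f : E 2 → ℂ) (ξ : E 3) : ℂ :=
  ∫ x, Complex.exp (-(((x 0 * ξ 0 + x 1 * ξ 1 + (x 0 ^ 2 + x 1 ^ 2) * ξ 2 : ℝ) : ℂ) * Complex.I)) *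
    f x

/-- linear change of variables -/
noncomputable def Lb : E 3 ≃L[ℝ] (ℝ × ℝ) × ℝ :=
  LinearEquiv.toContinuousLinearEquiv
    { toFun := fun ξ => ((-ξ 0, -ξ 1), -ξ 2)
      map_add' := fun x y => by
        simp only [PiLp.add_apply]
        ext <;> simp <;> ring
      map_smul' := fun c x => by
        simp only [PiLp.smul_apply, smul_eq_mul, RingHom.id_apply]
        ext <;> simp
      invFun := fun z => !₂[-z.1.1, -z.1.2, -z.2]
      left_inv := fun x => by
        ext i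
        fin_cases i <;> simp
      right_inv := fun z => by
        ext <;> simp }

theorem Lb_apply (ξ : E 3) : Lb ξ = ((-ξ 0, -ξ 1), -ξ 2) := rfl

theorem map_Lb : ∃ c : ℝ≥0, Measure.map Lb (volume : Measure (E 3)) =
    c • (volume : Measure ((ℝ × ℝ) × ℝ)) := by
  have h2 : (volume : Measure (ℝ × ℝ)).IsAddHaarMeasure := by
    rw [Measure.volume_eq_prod]
    infer_instance
  have h3 : (volume : Measure ((ℝ × ℝ) × ℝ)).IsAddHaarMeasure := by
    rw [Measure.volume_eq_prod]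
    infer_instance
  have h1 : (Measure.map (⇑Lb) (volume : Measure (E 3))).IsAddHaarMeasure := inferInstance
  refine ⟨Measure.addHaarScalarFactor (Measure.map (⇑Lb) (volume : Measure (E 3))) volume, ?_⟩
  exact Measure.isAddLeftInvariant_eq_smul (Measure.map (⇑Lb) (volume : Measure (E 3))) volume

lemma plane_int5 (G : E 2 → ℂ) : ∫ y, G y = ∫ p : ℝ × ℝ, G !₂[p.1, p.2] := by
  have h1 : ∫ y : Fin 2 → ℝ, G (WithLp.toLp 2 y) = ∫ x : E 2, G x :=
    (PiLp.volume_preserving_toLp (Fin 2)).integral_comp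
      (MeasurableEquiv.toLp 2 (Fin 2 → ℝ)).measurableEmbedding G
  have h3 := (volume_preserving_finTwoArrow ℝ).symm
  have h4 : ∫ p : ℝ × ℝ, G (WithLp.toLp 2 (MeasurableEquiv.finTwoArrow.symm p)) =
      ∫ y : Fin 2 → ℝ, G (WithLp.toLp 2 y) :=
    h3.integral_comp MeasurableEquiv.finTwoArrow.symm.measurableEmbedding
      (fun y : Fin 2 → ℝ => G (WithLp.toLp 2 y))
  rw [← h1, ← h4]
  apply integral_congr_ae
  refine ae_of_all _ fun q => ?_
  congr 1

theorem exo_eq (f : E 2 → ℂ) (ξ : E 3) :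
    exo f ξ = EE (fun y => y.1 ^ 2 + y.2 ^ 2) (fun y => f !₂[y.1, y.2]) (Lb ξ).1 (Lb ξ).2 := by
  unfold exo EE
  rw [plane_int5]
  apply integral_congr_ae
  refine ae_of_all _ fun y => ?_
  beta_reduce
  have e0 : (!₂[y.1, y.2] : E 2) 0 = y.1 := rfl
  have e1 : (!₂[y.1, y.2] : E 2) 1 = y.2 := rfl
  rw [e0, e1, mul_comm]
  simp only [Lb_apply, ee]
  congr 2
  push_cast
  ring

/-- measurability of `EE` -/
theorem EE_meas {h : ℝ × ℝ → ℝ} {f : ℝ × ℝ → ℂ} (hh : Measurable h) (hf : Measurable f) :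
    StronglyMeasurable (fun z : (ℝ × ℝ) × ℝ => EE h f z.1 z.2) := by
  have h1 : Measurable (fun q : ((ℝ × ℝ) × ℝ) × (ℝ × ℝ) =>
      f q.2 * ee (q.1.1.1 * q.2.1 + q.1.1.2 * q.2.2 + q.1.2 * h q.2)) := by
    unfold ee
    fun_prop
  exact h1.stronglyMeasurable.integral_prod_right

/-- the theorem on polygons for `exo` -/
theorem polyR_exo (p : ℝ) (hp3 : 3 < p) (D k : ℕ) : ∃ K : ℝ, ∀ P : MvPolynomial (Fin 2) ℝ,
    P.totalDegree ≤ D → ∀ (a : E 2) (r : ℝ), 0 < r →
    ∀ (ω : Fin k → E 2) (c : Fin k → ℝ), (∀ j, ‖ω j‖ = 1) →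
    eLpNorm (exo (({x : E 2 | |x 0 - a 0| ≤ r ∧ |x 1 - a 1| ≤ r} ∩
        {x : E 2 | ∀ j, c j ≤ ⟪ω j, x⟫}).indicator
      (fun x => ee (MvPolynomial.eval (fun i => x i) P)))) (ENNReal.ofReal p) volume ≤
      ENNReal.ofReal (K * r ^ (2 - 4 / p)) := by
  obtain ⟨K, hK0, hK⟩ := polyR_all p D k hp3
  obtain ⟨c0, hc0⟩ := map_Lb
  have hp0 : 0 < p := by linarith
  refine ⟨(c0 : ℝ) ^ (1 / p) * K, fun P hP a r hr ω c hω => ?_⟩
  set A : Set (E 2) := {x : E 2 | |x 0 - a 0| ≤ r ∧ |x 1 - a 1| ≤ r} ∩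
        {x : E 2 | ∀ j, c j ≤ ⟪ω j, x⟫} with hA
  set B : Set (ℝ × ℝ) := box (a 0, a 1) r ∩ ⋂ j, hp (ω j 0, ω j 1) (c j) with hB
  have hmem : ∀ y : ℝ × ℝ, (!₂[y.1, y.2] : E 2) ∈ A ↔ y ∈ B := by
    intro y
    have e0 : (!₂[y.1, y.2] : E 2) 0 = y.1 := rfl
    have e1 : (!₂[y.1, y.2] : E 2) 1 = y.2 := rfl
    rw [hA, hB, mem_inter_iff, mem_inter_iff, mem_ofPred_eq, mem_ofPred_eq, mem_iInter]
    apply and_congr
    · rw [e0, e1, abs_le, abs_le]
      simp only [box, mem_prod, mem_Icc]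
      constructor
      · rintro ⟨⟨h1, h2⟩, h3, h4⟩
        exact ⟨⟨by linarith, by linarith⟩, ⟨by linarith, by linarith⟩⟩
      · rintro ⟨⟨h1, h2⟩, h3, h4⟩
        exact ⟨⟨by linarith, by linarith⟩, ⟨by linarith, by linarith⟩⟩
    · apply forall_congr'
      intro j
      have e2 : (⟪ω j, (!₂[y.1, y.2] : E 2)⟫ : ℝ) = ω j 0 * y.1 + ω j 1 * y.2 := by
        rw [PiLp.inner_apply, Fin.sum_univ_two]
        simp only [RCLike.inner_apply, conj_trivial]
        change y.1 * ω j 0 + y.2 * ω j 1 = _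
        ring
      rw [e2]
      exact Iff.rfl
  have hf : (fun y : ℝ × ℝ => A.indicator (fun x : E 2 => ee (MvPolynomial.eval (fun i => x i) P))
      !₂[y.1, y.2]) = B.indicator (fun y => ee (pf P y)) := by
    funext y
    have e3 : MvPolynomial.eval (fun i => (!₂[y.1, y.2] : E 2) i) P = pf P y := by
      have e4 : (fun i => (!₂[y.1, y.2] : E 2) i) = ![y.1, y.2] := by
        funext i
        fin_cases i <;> rfl
      unfold pf
      rw [e4]
    by_cases hy : y ∈ B
    · rw [indicator_of_mem hy, indicator_of_mem ((hmem y).2 hy), e3]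
    · rw [indicator_of_notMem hy, indicator_of_notMem (fun h => hy ((hmem y).1 h))]
  have hω' : ∀ j, ((ω j 0, ω j 1) : ℝ × ℝ).1 ^ 2 + ((ω j 0, ω j 1) : ℝ × ℝ).2 ^ 2 = 1 := by
    intro j
    have h1 := EuclideanSpace.norm_sq_eq (ω j)
    rw [hω j, Fin.sum_univ_two, Real.norm_eq_abs, Real.norm_eq_abs, sq_abs, sq_abs] at h1
    linarith
  have hmain := hK P hP (a 0, a 1) r hr (fun j => (ω j 0, ω j 1)) c hω'
  set U : (ℝ × ℝ) × ℝ → ℂ := fun z => EE (fun y => y.1 ^ 2 + y.2 ^ 2)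
      (B.indicator (fun y => ee (pf P y))) z.1 z.2 with hU
  have hBm : MeasurableSet B := by
    apply MeasurableSet.inter (measurableSet_Icc.prod measurableSet_Icc)
    apply MeasurableSet.iInter
    intro j
    exact measurableSet_le measurable_const (by fun_prop)
  have hpm : Measurable (fun y : ℝ × ℝ => ee (pf P y)) := by
    have h1 : Continuous (fun y : ℝ × ℝ => pf P y) := by
      unfold pf
      apply (MvPolynomial.continuous_eval P).comp
      apply continuous_pi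
      intro i
      fin_cases i
      · exact continuous_fst
      · exact continuous_snd
    unfold ee
    exact (Complex.continuous_exp.comp
      ((Complex.continuous_ofReal.comp h1).mul continuous_const)).measurable
  have hUm : StronglyMeasurable U := EE_meas (by fun_prop) (hpm.indicator hBm)
  have hex : exo (A.indicator (fun x : E 2 => ee (MvPolynomial.eval (fun i => x i) P))) =
      U ∘ Lb := by
    funext ξ
    rw [exo_eq, hf]
    rfl
  rw [hex]
  have hcomp : eLpNorm (U ∘ Lb) (ENNReal.ofReal p) volume =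
      eLpNorm U (ENNReal.ofReal p) (Measure.map Lb volume) := by
    rw [eLpNorm_map_measure hUm.aestronglyMeasurable Lb.continuous.measurable.aemeasurable]
  rw [hcomp, hc0]
  have hpn : ENNReal.ofReal p ≠ ∞ := ENNReal.ofReal_ne_top
  rw [show (c0 • (volume : Measure ((ℝ × ℝ) × ℝ))) =
    ((c0 : ℝ≥0∞) • (volume : Measure ((ℝ × ℝ) × ℝ))) from rfl,
    eLpNorm_smul_measure_of_ne_top hpn, smul_eq_mul,
    mul_assoc, ENNReal.ofReal_mul (by positivity)]
  have e5 : (1 / ENNReal.ofReal p).toReal = 1 / p := by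
    rw [ENNReal.toReal_div, ENNReal.toReal_ofReal hp0.le]
    simp
  rw [e5]
  apply mul_le_mul' _ hmain
  rw [← ENNReal.ofReal_coe_nnreal, ENNReal.ofReal_rpow_of_nonneg c0.coe_nonneg (by positivity)]

end Pool.Agent.W770.PC
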