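import Pool.Agent.W770.PC.Defs

set_option autoImplicit false

/-!
Statements of the lemmas, each as a proposition `S_name`. Subtask `PC-name` asks for a theorem
`name_thm : S_name` (possibly with other statements `S_...` as hypotheses).
-/

open MeasureTheory Set Filter Topology
open scoped ENNReal NNReal

namespace Pool.Agent.W770.PC

/-- PC-bump -/
def S_bump : Prop :=
  (∀ x, 0 ≤ bump x) ∧ (∀ x, bump x ≤ 1) ∧ (∀ x, 1 ≤ |x| → bump x = 0) ∧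
  ContDiff ℝ (⊤ : ℕ∞) bump ∧
  (∀ (M : ℕ) (x : ℝ), 0 ≤ x → x ≤ M → ∑ k ∈ Finset.range (M + 1), bump (x - k) = 1) ∧
  (∀ (M : ℕ) (x : ℝ), ∑ k ∈ Finset.range M, bump (x - k) ≤ 1) ∧
  ∃ B : ℝ, 1 ≤ B ∧ ∀ j ≤ 3, ∀ x, |iteratedDeriv j bump x| ≤ B

/-- PC-part: the partition of unity of the stopping time -/
def S_part : Prop :=
  (∀ (a : ℕ) (y : ℝ × ℝ), y ∈ Sq → ∑ k ∈ grid a, bet a k y = 1) ∧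
  (∀ (a : ℕ) (y : ℝ × ℝ) (S : Finset (ℕ × ℕ)), S ⊆ grid a →
    0 ≤ ∑ k ∈ S, bet a k y ∧ ∑ k ∈ S, bet a k y ≤ 1) ∧
  (∀ (g : ℝ × ℝ → ℝ) (a : ℕ) (y : ℝ × ℝ), 0 ≤ gg g a y ∧ gg g a y ≤ 1) ∧
  ∀ (g : ℝ × ℝ → ℝ) (A : ℕ) (y : ℝ × ℝ), y ∈ Sq →
    ∑ a ∈ Finset.range A, ∑ k ∈ FL g a, gg g a y * bet a k y + gg g A y = 1

/-- PC-prod: derivatives of a product of functions at dyadic scales, one variable -/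
def S_prod : Prop :=
  ∀ B : ℝ, 1 ≤ B → ∃ C : ℝ, 1 ≤ C ∧ ∀ f : ℕ → ℝ → ℝ, (∀ a, ContDiff ℝ (⊤ : ℕ∞) (f a)) →
    (∀ a u, |f a u| ≤ 1) → (∀ a, ∀ j ≤ 3, ∀ u, |iteratedDeriv j (f a) u| ≤ B * (2 ^ a) ^ j) →
    ∀ a, ∀ j ≤ 3, ∀ u,
      |iteratedDeriv j (fun u => ∏ a' ∈ Finset.range a, f a' u) u| ≤ C * (2 ^ a) ^ j

/-- PC-gg: smoothness and derivatives of `gg` and `bet` -/
def S_gg : Prop :=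
  (∀ (a : ℕ) (k : ℕ × ℕ), ContDiff ℝ (⊤ : ℕ∞) (bet a k)) ∧
  (∀ (g : ℝ × ℝ → ℝ) (a : ℕ), ContDiff ℝ (⊤ : ℕ∞) (gg g a)) ∧
  (∀ (a : ℕ) (k : ℕ × ℕ) (y : ℝ × ℝ), bet a k y ≠ 0 →
    |2 ^ a * y.1 - k.1| < 1 ∧ |2 ^ a * y.2 - k.2| < 1) ∧
  ∃ C : ℝ, 1 ≤ C ∧ ∀ (a : ℕ), ∀ j ≤ 3, ∀ y : ℝ × ℝ,
    (∀ k : ℕ × ℕ, |iteratedDeriv j (fun u => bet a k (u, y.2)) y.1| ≤ C * (2 ^ a) ^ j ∧
      |iteratedDeriv j (fun v => bet a k (y.1, v)) y.2| ≤ C * (2 ^ a) ^ j) ∧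
    ∀ g : ℝ × ℝ → ℝ, |iteratedDeriv j (fun u => gg g a (u, y.2)) y.1| ≤ C * (2 ^ a) ^ j ∧
      |iteratedDeriv j (fun v => gg g a (y.1, v)) y.2| ≤ C * (2 ^ a) ^ j

/-- PC-osc: three integrations by parts, one variable -/
def S_osc : Prop :=
  ∀ (b : ℝ → ℂ) (c s B : ℝ), ContDiff ℝ (⊤ : ℕ∞) b → 0 < s → (∀ u, s < |u - c| → b u = 0) →
    (∀ u, ‖b u‖ ≤ B) → (∀ u, ‖iteratedDeriv 3 b u‖ ≤ B / s ^ 3) →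
    ∀ η : ℝ, ‖∫ u, b u * ee (η * u)‖ ≤ 16 * B * s * ((1 + s * |η|) ^ 3)⁻¹

/-- bounds for the first three derivatives at a point, at scale `1/s` -/
def Sc (s C : ℝ) (f : ℝ → ℂ) (u : ℝ) : Prop := ∀ j ≤ 3, ‖iteratedDeriv j f u‖ ≤ C * s ^ j

/-- PC-sc -/
def S_sc : Prop :=
  (∀ (s C C' : ℝ) (f g : ℝ → ℂ) (u : ℝ), 0 < s → ContDiff ℝ (⊤ : ℕ∞) f →
    ContDiff ℝ (⊤ : ℕ∞) g → Sc s C f u → Sc s C' g u →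
    Sc s (8 * C * C') (fun u => f u * g u) u) ∧
  (∀ (s C : ℝ) (R : ℝ → ℝ) (u : ℝ), 0 < s → 0 ≤ C → ContDiff ℝ (⊤ : ℕ∞) R →
    |iteratedDeriv 1 R u| ≤ C * s → |iteratedDeriv 2 R u| ≤ C * s ^ 2 →
    |iteratedDeriv 3 R u| ≤ C * s ^ 3 → Sc s ((1 + C) ^ 3) (fun u => ee (R u)) u) ∧
  (∀ (s C : ℝ) (R : ℝ → ℝ) (u : ℝ), ContDiff ℝ (⊤ : ℕ∞) R →
    (∀ j ≤ 3, |iteratedDeriv j R u| ≤ C * s ^ j) → Sc s C (fun u => (R u : ℂ)) u)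

/-- PC-der: elementary facts on `d1`, `d2` -/
def S_der : Prop :=
  ∀ f : ℝ × ℝ → ℝ, ContDiff ℝ (⊤ : ℕ∞) f →
    ContDiff ℝ (⊤ : ℕ∞) (d1 f) ∧ ContDiff ℝ (⊤ : ℕ∞) (d2 f) ∧
    (∀ y : ℝ × ℝ, HasDerivAt (fun u => f (u, y.2)) (d1 f y) y.1) ∧
    (∀ y : ℝ × ℝ, HasDerivAt (fun v => f (y.1, v)) (d2 f y) y.2) ∧
    (∀ y : ℝ × ℝ, HasFDerivAt f ((d1 f y) • ContinuousLinearMap.fst ℝ ℝ ℝ +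
      (d2 f y) • ContinuousLinearMap.snd ℝ ℝ ℝ) y) ∧
    (∀ y, d2 (d1 f) y = d1 (d2 f) y) ∧
    (∀ h : ℝ × ℝ → ℝ, ContDiff ℝ (⊤ : ℕ∞) h → ∀ t y,
      d1 (ph f h t) y = d1 f y + t * d1 h y ∧ d2 (ph f h t) y = d2 f y + t * d2 h y) ∧
    Continuous (hess f) ∧ Continuous (det2 f)

/-- PC-J: the decay of one piece -/
def S_J : Prop :=
  ∀ C B : ℝ, ∃ K : ℝ, 0 ≤ K ∧ ∀ (ψ : ℝ × ℝ → ℂ) (g : ℝ × ℝ → ℝ), Amp B ψ →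
    ContDiff ℝ (⊤ : ℕ∞) g → ∀ (a : ℕ) (k : ℕ × ℕ),
    (∀ y ∈ cell a k, hess g y ≤ C * 4 ^ a ∧
      |d1 (d1 (d1 g)) y| + |d2 (d2 (d2 g)) y| ≤ C * 8 ^ a) →
    ∀ x : ℝ × ℝ, ‖J ψ g a k x‖ ≤ K * ((4 ^ a)⁻¹ * wt a (gr g x (cen a k)))

/-- PC-van: pieces with small `NN` vanish -/
def S_van : Prop :=
  ∀ (C B : ℝ) (ψ : ℝ × ℝ → ℂ) (F h : ℝ × ℝ → ℝ), Amp B ψ → Tame C F h →
    ∀ (t : ℝ) (a : ℕ), ∀ k ∈ grid (a + 1), C * NN (ph F h t) (a + 1) k < 1 →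
    ∀ x, J ψ (ph F h t) (a + 1) k x = 0

/-- PC-comp: the weight is roughly constant on a flat cell -/
def S_comp : Prop :=
  ∀ C : ℝ, ∃ K : ℝ, 0 ≤ K ∧ ∀ g : ℝ × ℝ → ℝ, ContDiff ℝ (⊤ : ℕ∞) g → ∀ (a : ℕ) (k : ℕ × ℕ),
    (∀ y ∈ cell a k, hess g y ≤ C * 4 ^ a) → ∀ x : ℝ × ℝ, ∀ y ∈ cell a k,
    wt a (gr g x (cen a k)) ≤ K * wt a (gr g x y)

/-- PC-cell: the cells have bounded overlap and lie in `Om` -/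
def S_cell : Prop :=
  (∀ (a : ℕ), ∀ k ∈ grid a, cell a k ⊆ Om) ∧
  (∀ (a : ℕ) (k : ℕ × ℕ), volume (cell a k) = ENNReal.ofReal (4 * (4 ^ a)⁻¹)) ∧
  (∀ (a : ℕ) (k : ℕ × ℕ) (y : ℝ × ℝ),
    |2 ^ a * y.1 - k.1| ≤ 1 → |2 ^ a * y.2 - k.2| ≤ 1 → y ∈ cell a k) ∧
  (∀ (a : ℕ) (S : Finset (ℕ × ℕ)), S ⊆ grid a → ∀ f : ℝ × ℝ → ℝ≥0∞, Measurable f →
    ∑ k ∈ S, ∫⁻ y in cell a k, f y ≤ 9 * ∫⁻ y in Om, f y)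

/-- PC-wint: integrals of the weight -/
def S_wint : Prop :=
  ∃ C : ℝ, 0 ≤ C ∧ ∀ a : ℕ, (∀ x : ℝ,
    ∫⁻ v : ℝ, ENNReal.ofReal (wt a |v + x|) ≤ ENNReal.ofReal (C * 2 ^ a)) ∧
    ∀ x : ℝ × ℝ, ∫⁻ v : ℝ × ℝ, ENNReal.ofReal (wt a (|v.1 + x.1| + |v.2 + x.2|)) ≤
      ENNReal.ofReal (C * 4 ^ a)

/-- PC-det: sum over a class, by the area inequality -/
def S_det : Prop :=
  ∀ C : ℝ, ∃ K : ℝ, 0 ≤ K ∧ ∀ F h : ℝ × ℝ → ℝ, Tame C F h → ∀ (t : ℝ) (a b : ℕ) (x : ℝ × ℝ),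
    1 ≤ b → ∑ k ∈ KK C (ph F h t) a b, (4 ^ a)⁻¹ * wt a (gr (ph F h t) x (cen a k)) ≤ K / 2 ^ b

/-- PC-slice: sum over a class, by one-dimensional slices -/
def S_slice : Prop :=
  ∀ C : ℝ, ∃ K : ℝ, 0 ≤ K ∧ ∀ F h : ℝ × ℝ → ℝ, Tame C F h → ∀ (t : ℝ) (a b : ℕ) (x : ℝ × ℝ),
    ∑ k ∈ KK C (ph F h t) a b, (4 ^ a)⁻¹ * wt a (gr (ph F h t) x (cen a k)) ≤ K / 2 ^ a

/-- PC-time: measure of the times at which a cell is in a class -/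
def S_time : Prop :=
  ∀ C : ℝ, ∃ K : ℝ, 0 ≤ K ∧ ∀ F h : ℝ × ℝ → ℝ, Tame C F h → ∀ (a b : ℕ), ∀ k ∈ grid a,
    volume {t : ℝ | NN (ph F h t) a k ≤ 1 ∧ 1 ≤ C * NN (ph F h t) a k ∧
      DD (ph F h t) a k ≤ 2 ^ b} ≤ ENNReal.ofReal (K * 2 ^ b)

/-- PC-planch: Plancherel on the plane -/
def S_planch : Prop :=
  ∀ U : ℝ × ℝ → ℂ, Integrable U → MemLp U 2 →
    ∫⁻ x : ℝ × ℝ, ‖∫ y, U y * ee (x.1 * y.1 + x.2 * y.2)‖ₑ ^ 2 =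
      ENNReal.ofReal ((2 * Real.pi) ^ 2) * ∫⁻ y, ‖U y‖ₑ ^ 2

/-- PC-L2x: `L²` bound in `x` for a fixed phase -/
def S_L2x : Prop :=
  ∀ B : ℝ, ∃ K : ℝ, 0 ≤ K ∧ ∀ (ψ : ℝ × ℝ → ℂ) (g : ℝ × ℝ → ℝ), Amp B ψ →
    ContDiff ℝ (⊤ : ℕ∞) g → ∀ (a : ℕ) (S : Finset (ℕ × ℕ)), S ⊆ grid a →
    ∫⁻ x, ‖∑ k ∈ S, J ψ g a k x‖ₑ ^ 2 ≤ ENNReal.ofReal (K * (4 ^ a)⁻¹ * S.card)

/-- PC-meas: measurability -/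
def S_meas : Prop :=
  ∀ (C B : ℝ) (ψ : ℝ × ℝ → ℂ) (F h : ℝ × ℝ → ℝ), Amp B ψ → ContDiff ℝ (⊤ : ℕ∞) F →
    ContDiff ℝ (⊤ : ℕ∞) h →
    (∀ (a : ℕ) (k : ℕ × ℕ), Continuous (fun t : ℝ => NN (ph F h t) a k)) ∧
    (∀ (a : ℕ) (k : ℕ × ℕ), Continuous (fun t : ℝ => DD (ph F h t) a k)) ∧
    (∀ (a : ℕ) (k : ℕ × ℕ),
      Measurable (fun z : (ℝ × ℝ) × ℝ => J ψ (ph F h z.2) a k z.1)) ∧
    (∀ a b : ℕ, Measurable (fun z : (ℝ × ℝ) × ℝ => uu C ψ (ph F h z.2) a b z.1)) ∧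
    Measurable (fun z : (ℝ × ℝ) × ℝ => uz ψ (ph F h z.2) z.1)

/-- PC-L2: `L²` bounds in space and time -/
def S_L2 : Prop :=
  ∀ C B : ℝ, ∃ K : ℝ, 0 ≤ K ∧ ∀ (ψ : ℝ × ℝ → ℂ) (F h : ℝ × ℝ → ℝ), Amp B ψ → Tame C F h →
    (∀ a b : ℕ, ∫⁻ z : (ℝ × ℝ) × ℝ, ‖uu C ψ (ph F h z.2) a b z.1‖ₑ ^ 2 ≤
      ENNReal.ofReal (K * 2 ^ b)) ∧
    ∫⁻ z : (ℝ × ℝ) × ℝ, ‖uz ψ (ph F h z.2) z.1‖ₑ ^ 2 ≤ ENNReal.ofReal K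

/-- PC-sup: sup bounds -/
def S_sup : Prop :=
  ∀ C B : ℝ, ∃ K : ℝ, 0 ≤ K ∧ ∀ (ψ : ℝ × ℝ → ℂ) (F h : ℝ × ℝ → ℝ), Amp B ψ → Tame C F h →
    ∀ (t : ℝ) (x : ℝ × ℝ), (∀ a b : ℕ, ‖uu C ψ (ph F h t) a b x‖ ≤
      K * min (1 / 2 ^ a) (1 / 2 ^ b)) ∧ ‖uz ψ (ph F h t) x‖ ≤ K

/-- PC-cls: every flat cell is in exactly one class `b < 2 a + c` -/
def S_cls : Prop :=
  ∀ C : ℝ, ∃ c : ℕ, ∀ F h : ℝ × ℝ → ℝ, Tame C F h → ∀ (t : ℝ) (a : ℕ) (f : ℕ × ℕ → ℂ),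
    (∀ k ∈ grid a, C * NN (ph F h t) a k < 1 → f k = 0) →
    ∑ b ∈ Finset.range (2 * a + c), ∑ k ∈ KK C (ph F h t) a b, f k =
      ∑ k ∈ FL (ph F h t) a, f k

/-- PC-term: the stopping time stops, locally uniformly in `t` -/
def S_term : Prop :=
  ∀ F h : ℝ × ℝ → ℝ, ContDiff ℝ (⊤ : ℕ∞) F → ContDiff ℝ (⊤ : ℕ∞) h → ∀ T : ℝ, ∃ A₀ : ℕ,
    ∀ A ≥ A₀, ∀ t : ℝ, |t| ≤ T → ∀ y, gg (ph F h t) A y = 0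

/-- PC-decomp: the decomposition of the oscillatory integral -/
def S_decomp : Prop :=
  ∀ C : ℝ, ∃ c : ℕ, ∀ (B : ℝ) (ψ : ℝ × ℝ → ℂ) (F h : ℝ × ℝ → ℝ), Amp B ψ → Tame C F h →
    ∀ T : ℝ, ∃ A₀ : ℕ, ∀ A ≥ A₀, ∀ t : ℝ, |t| ≤ T → ∀ x : ℝ × ℝ,
      EE h (fun y => ψ y * ee (F y)) x t = uz ψ (ph F h t) x +
        ∑ a ∈ Finset.range A, ∑ b ∈ Finset.range (2 * (a + 1) + c),
          uu C ψ (ph F h t) (a + 1) b x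

/-- PC-lp: `L^p` from sup and `L²` -/
def S_lp : Prop :=
  ∀ (u : (ℝ × ℝ) × ℝ → ℂ) (A M p : ℝ), Measurable u → 0 ≤ A → 0 ≤ M → 2 ≤ p →
    (∀ z, ‖u z‖ ≤ A) → ∫⁻ z, ‖u z‖ₑ ^ 2 ≤ ENNReal.ofReal M →
    eLpNorm u (ENNReal.ofReal p) volume ≤ ENNReal.ofReal ((A ^ (p - 2) * M) ^ (1 / p))

/-- PC-sum: the final double series converges for `p > 3` -/
def S_sum : Prop :=
  ∀ (p K : ℝ) (c : ℕ), 3 < p → 0 ≤ K → ∃ M : ℝ, 0 ≤ M ∧ ∀ A : ℕ,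
    ∑ a ∈ Finset.range A, ∑ b ∈ Finset.range (2 * (a + 1) + c),
      ((K * min (1 / 2 ^ (a + 1)) (1 / 2 ^ b)) ^ (p - 2) * (K * 2 ^ b)) ^ (1 / p) ≤ M

/-- PC-main: the main theorem for tame phases -/
def S_main : Prop :=
  ∀ p C B : ℝ, 3 < p → ∃ K : ℝ, ∀ (ψ : ℝ × ℝ → ℂ) (F h : ℝ × ℝ → ℝ), Amp B ψ → Tame C F h →
    eLpNorm (fun z : (ℝ × ℝ) × ℝ => EE h (fun y => ψ y * ee (F y)) z.1 z.2)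
      (ENNReal.ofReal p) volume ≤ ENNReal.ofReal K

/-! ### Polynomial phases -/

/-- the function given by a polynomial in two variables -/
noncomputable def pf (P : MvPolynomial (Fin 2) ℝ) (y : ℝ × ℝ) : ℝ :=
  MvPolynomial.eval ![y.1, y.2] P

/-- closed square with centre `w` and half side `r` -/
def box (w : ℝ × ℝ) (r : ℝ) : Set (ℝ × ℝ) :=
  Icc (w.1 - r) (w.1 + r) ×ˢ Icc (w.2 - r) (w.2 + r)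

/-- PC-dpf -/
def S_dpf : Prop :=
  ∀ P : MvPolynomial (Fin 2) ℝ, ContDiff ℝ (⊤ : ℕ∞) (pf P) ∧
    d1 (pf P) = pf (MvPolynomial.pderiv 0 P) ∧ d2 (pf P) = pf (MvPolynomial.pderiv 1 P) ∧
    (∀ (t : ℝ), ph (pf P) (fun y => y.1 ^ 2 + y.2 ^ 2) t =
      pf (P + MvPolynomial.C t * (MvPolynomial.X 0 ^ 2 + MvPolynomial.X 1 ^ 2))) ∧
    (∀ t : ℝ, (P + MvPolynomial.C t * (MvPolynomial.X 0 ^ 2 + MvPolynomial.X 1 ^ 2)).totalDegree ≤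
      max P.totalDegree 2)

/-- PC-norm: norm equivalences for polynomials of bounded degree -/
def S_norm : Prop :=
  ∀ D : ℕ, ∃ C : ℝ, 0 ≤ C ∧ ∀ Q : MvPolynomial (Fin 2) ℝ, Q.totalDegree ≤ D →
    ∀ (w : ℝ × ℝ) (s : ℝ), 0 < s → ∀ y ∈ box w (8 * s),
      |pf Q y| ≤ C / s ^ 2 * ∫ v in box w s, |pf Q v| ∧
      |pf (MvPolynomial.pderiv 0 Q) y| ≤ C / s ^ 3 * ∫ v in box w s, |pf Q v| ∧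
      |pf (MvPolynomial.pderiv 1 Q) y| ≤ C / s ^ 3 * ∫ v in box w s, |pf Q v|

/-- PC-cells: the cell inequalities for polynomials -/
def S_cells : Prop :=
  ∀ D : ℕ, ∃ C : ℝ, 0 ≤ C ∧ ∀ Q : MvPolynomial (Fin 2) ℝ, Q.totalDegree ≤ D →
    (∀ (a : ℕ) (k : ℕ × ℕ), ∀ y ∈ cell a k, hess (pf Q) y ≤ C * 4 ^ a * NN (pf Q) a k) ∧
    (∀ (a : ℕ) (k : ℕ × ℕ), ∀ y ∈ cell a k,
      |d1 (d1 (d1 (pf Q))) y| + |d2 (d2 (d2 (pf Q))) y| ≤ C * 8 ^ a * NN (pf Q) a k) ∧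
    (∀ (a : ℕ) (k k' : ℕ × ℕ), |2 * (k'.1 : ℤ) - k.1| ≤ 2 → |2 * (k'.2 : ℤ) - k.2| ≤ 2 →
      NN (pf Q) a k' ≤ C * NN (pf Q) (a + 1) k)

/-- PC-area: the area inequality for gradients of polynomials -/
def S_area : Prop :=
  ∀ D : ℕ, ∃ C : ℝ, 0 ≤ C ∧ ∀ Q : MvPolynomial (Fin 2) ℝ, Q.totalDegree ≤ D →
    ∀ φ : ℝ × ℝ → ℝ≥0∞, Measurable φ →
    ∫⁻ y, φ (d1 (pf Q) y, d2 (pf Q) y) * ENNReal.ofReal |det2 (pf Q) y| ≤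
      ENNReal.ofReal C * ∫⁻ v, φ v

/-- PC-line: change of variables along coordinate lines -/
def S_line : Prop :=
  ∀ D : ℕ, ∃ C : ℝ, 0 ≤ C ∧ ∀ Q : MvPolynomial (Fin 2) ℝ, Q.totalDegree ≤ D →
    ∀ φ : ℝ → ℝ≥0∞, Measurable φ →
    ∫⁻ y in Om, φ (pf Q y) * ENNReal.ofReal |pf (MvPolynomial.pderiv 0 Q) y| ≤
      ENNReal.ofReal C * ∫⁻ v, φ v ∧
    ∫⁻ y in Om, φ (pf Q y) * ENNReal.ofReal |pf (MvPolynomial.pderiv 1 Q) y| ≤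
      ENNReal.ofReal C * ∫⁻ v, φ v

/-- PC-tq: the times at which the Hessian matrix is large and its determinant small -/
def S_tq : Prop :=
  ∀ p q r L Δ : ℝ, 0 < L → 0 ≤ Δ →
    volume {t : ℝ | L ≤ |p + 2 * t| + |q| + |r + 2 * t| ∧
      |(p + 2 * t) * (r + 2 * t) - q ^ 2| ≤ Δ} ≤ ENNReal.ofReal (12 * Δ / L)

/-- PC-tameP: polynomials are tame for the paraboloid -/
def S_tameP : Prop :=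
  ∀ D : ℕ, ∃ C : ℝ, ∀ P : MvPolynomial (Fin 2) ℝ, P.totalDegree ≤ D →
    Tame C (pf P) (fun y => y.1 ^ 2 + y.2 ^ 2)

/-! ### Cutoffs -/

/-- PC-riesz: M. Riesz' theorem on the Fourier side, for smooth functions -/
def S_riesz : Prop :=
  ∀ p : ℝ, 1 < p → ∃ C : ℝ, 0 ≤ C ∧ ∀ φ : ℝ → ℂ, ContDiff ℝ (⊤ : ℕ∞) φ →
    HasCompactSupport φ → ∀ c : ℝ,
    ∫⁻ x : ℝ, ‖∫ y in Ici c, φ y * ee (x * y)‖ₑ ^ p ≤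
      ENNReal.ofReal C * ∫⁻ x : ℝ, ‖∫ y, φ y * ee (x * y)‖ₑ ^ p

/-- PC-rect: cutting off to a rectangle -/
def S_rect : Prop :=
  ∀ p : ℝ, 1 < p → ∃ C : ℝ, 0 ≤ C ∧ ∀ (h : ℝ × ℝ → ℝ) (f : ℝ × ℝ → ℂ),
    ContDiff ℝ (⊤ : ℕ∞) h → ContDiff ℝ (⊤ : ℕ∞) f → HasCompactSupport f →
    ∀ a b c d : ℝ,
    eLpNorm (fun z : (ℝ × ℝ) × ℝ => EE h ((Icc a b ×ˢ Icc c d).indicator f) z.1 z.2)
      (ENNReal.ofReal p) volume ≤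
    ENNReal.ofReal C * eLpNorm (fun z : (ℝ × ℝ) × ℝ => EE h f z.1 z.2)
      (ENNReal.ofReal p) volume

/-- PC-unit: polynomial chirps cut off to a rectangle in the square `[1/4, 3/4]²` -/
def S_unit : Prop :=
  ∀ (p : ℝ) (D : ℕ), 3 < p → ∃ K : ℝ, 0 ≤ K ∧ ∀ P : MvPolynomial (Fin 2) ℝ,
    P.totalDegree ≤ D → ∀ a b c d : ℝ, 1 / 4 ≤ a → b ≤ 3 / 4 → 1 / 4 ≤ c → d ≤ 3 / 4 →
    eLpNorm (fun z : (ℝ × ℝ) × ℝ => EE (fun y => y.1 ^ 2 + y.2 ^ 2)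
      ((Icc a b ×ˢ Icc c d).indicator (fun y => ee (pf P y))) z.1 z.2)
      (ENNReal.ofReal p) volume ≤ ENNReal.ofReal K

/-- PC-scale: all rectangles, by parabolic rescaling -/
def S_scale : Prop :=
  ∀ (p : ℝ) (D : ℕ), 3 < p → ∃ K : ℝ, 0 ≤ K ∧ ∀ P : MvPolynomial (Fin 2) ℝ,
    P.totalDegree ≤ D → ∀ a b c d r : ℝ, 0 < r → b - a ≤ r → d - c ≤ r →
    eLpNorm (fun z : (ℝ × ℝ) × ℝ => EE (fun y => y.1 ^ 2 + y.2 ^ 2)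
      ((Icc a b ×ˢ Icc c d).indicator (fun y => ee (pf P y))) z.1 z.2)
      (ENNReal.ofReal p) volume ≤ ENNReal.ofReal (K * r ^ (2 - 4 / p))

end Pool.Agent.W770.PC
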