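import Pool.Agent.W770.PC.Asm3
import Pool.Agent.W685.PC.Riesz
import Pool.Agent.W240.PC.RieszA
import Pool.Agent.W131.PC.CutS
import Pool.Agent.W639.PC.PolyS

set_option autoImplicit false

/-! Polynomial chirps on spherical polygons. -/

namespace Pool.Agent.W770.PC

theorem polyS_all : S_polyS := Pool.Agent.W639.PC.polyS_thm sph_all
  (Pool.Agent.W131.PC2.cutS_thm (Pool.Agent.W240.PC.rieszA_thm Pool.Agent.W685.PC.riesz_thm))

end Pool.Agent.W770.PC
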