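import Pool.Agent.W215.PC.Der
import Pool.Agent.W215.PC.Gg
import Pool.Agent.W346.PC.BUMP
import Pool.Agent.W131.PC.Part
import Pool.Agent.W346.PC.PROD
import Pool.Agent.W723.PC.Osc
import Pool.Agent.W366.PC.Sc
import Pool.Agent.W912.PC.PJ
import Pool.Agent.W347.PC.Van
import Pool.Agent.W368.PC.Comp
import Pool.Agent.W991.PC.Cell
import Pool.Agent.W585.PC.Wint
import Pool.Agent.W460.PC.Det
import Pool.Agent.W19.PC.Slice
import Pool.Agent.W271.PC.Time
import Pool.Agent.W490.PC.Planch
import Pool.Agent.W479.PC.L2x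
import Pool.Agent.W641.PC.Meas
import Pool.Agent.W591.PC.L2
import Pool.Agent.W19.PC.Sup
import Pool.Agent.W293.PC.Cls
import Pool.Agent.W782.PC.Term
import Pool.Agent.W54.PC.Decomp
import Pool.Agent.W253.PC.Lp
import Pool.Agent.W748.PC.Sum
import Pool.Agent.W724.PC.Main

set_option autoImplicit false

/-! The main theorem for tame phases. -/

namespace Pool.Agent.W770.PC

theorem part_all : S_part := Pool.Agent.W131.PCPart.part_thm bump_thm

theorem gg_all : S_gg := Pool.Agent.W215.PC.gg_thm bump_thm part_all prod_thm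

theorem comp_all : S_comp := Pool.Agent.W368.PC.comp_thm der_thm

theorem det_all : S_det := Pool.Agent.W460.PC.det_thm der_thm comp_all
  Pool.Agent.W991.PC.cell_thm Pool.Agent.W585.PC.wint_thm

theorem slice_all : S_slice := Pool.Agent.W19.PC.slice_thm der_thm comp_all
  Pool.Agent.W991.PC.cell_thm Pool.Agent.W585.PC.wint_thm

theorem meas_all : S_meas := Pool.Agent.W641.PC.meas_thm der_thm gg_all

theorem sup_all : S_sup := Pool.Agent.W19.PC.sup_thm
  (Pool.Agent.W912.PC.J_thm gg_all Pool.Agent.W723.PC.osc_thm Pool.Agent.W366.PC.sc_thm der_thm)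
  det_all slice_all der_thm

theorem L2_all : S_L2 := Pool.Agent.W591.PC.L2_thm
  (Pool.Agent.W271.PC.time_thm der_thm Pool.Agent.W991.PC.cell_thm)
  (Pool.Agent.W479.PC.L2x_thm gg_all part_all Pool.Agent.W991.PC.cell_thm planch_thm)
  meas_all Pool.Agent.W991.PC.cell_thm

theorem decomp_all : S_decomp := Pool.Agent.W54.PC.decomp_thm part_all
  (Pool.Agent.W347.PC.van_thm gg_all)
  (Pool.Agent.W293.PC.cls_thm der_thm Pool.Agent.W991.PC.cell_thm)
  (Pool.Agent.W782.PC.term_thm der_thm Pool.Agent.W991.PC.cell_thm) gg_all der_thm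

/-- **The main theorem for tame phases.** -/
theorem main_all : S_main := Pool.Agent.W724.PC.main_thm decomp_all sup_all L2_all meas_all
  Pool.Agent.W253.PC.lp_thm Pool.Agent.W748.PCSum.sum_thm

end Pool.Agent.W770.PC
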