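import Pool.Agent.W770.PC.Asm1
import Pool.Agent.W202.PC.Dpf
import Pool.Agent.W12.PC.Norm
import Pool.Agent.W557.PC.Cells
import Pool.Agent.W12.PC.Area
import Pool.Agent.W32.PC.Line
import Pool.Agent.W382.PC.Tq
import Pool.Agent.W465.PC.TameP
import Pool.Agent.W685.PC.Riesz
import Pool.Agent.W12.PC.Rect
import Pool.Agent.W736.PC.Unit
import Pool.Agent.W12.PC.Scale

set_option autoImplicit false

/-! Polynomial chirps on the paraboloid. -/

namespace Pool.Agent.W770.PC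

theorem tameP_all : S_tameP := Pool.Agent.W465.PC.tameP_thm Pool.Agent.W202.PC.Dpf.dpf_thm
  (Pool.Agent.W557.PC.cells_thm Pool.Agent.W202.PC.Dpf.dpf_thm
    (Pool.Agent.W12.PC.norm_thm Pool.Agent.W202.PC.Dpf.dpf_thm) Pool.Agent.W991.PC.cell_thm)
  (Pool.Agent.W12.PC.area_thm Pool.Agent.W202.PC.Dpf.dpf_thm der_thm)
  (Pool.Agent.W32.PC.line_thm Pool.Agent.W202.PC.Dpf.dpf_thm)
  Pool.Agent.W382.PC.Tq.tq_thm der_thm Pool.Agent.W991.PC.cell_thm

theorem scale_all : S_scale := Pool.Agent.W12.PC.scale_thm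
  (Pool.Agent.W736.PC.Unit.unit_thm main_all tameP_all
    (Pool.Agent.W12.PC.rect_thm Pool.Agent.W685.PC.riesz_thm) Pool.Agent.W202.PC.Dpf.dpf_thm)
  Pool.Agent.W202.PC.Dpf.dpf_thm

end Pool.Agent.W770.PC
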