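import Pool.Agent.W777.DL.Sph

set_option autoImplicit false

/-! The upper half sphere as a graph: integrals (after W777/DL/Tr). -/

namespace Pool.Agent.W770.PC.Half

open MeasureTheory Set Metric Complex
open scoped ENNReal RealInnerProductSpace Topology
open Pool.Agent.H789R2.FR (E sg)
open Pool.Agent.W777.DL (up up_meas half_lint)

/-- the upper half space -/
def HS : Set (E 3) := {x | 0 < x 2}

lemma HS_meas : MeasurableSet HS := measurableSet_lt measurable_const (by fun_prop)

/-- the density of the sphere over the plane -/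
noncomputable def wt2 (y : E 2) : ℝ := 1 / Real.sqrt (1 - ‖y‖ ^ 2)

lemma wt2_meas : Measurable wt2 :=
  measurable_const.div (measurable_const.sub (measurable_norm.pow_const 2)).sqrt

lemma wt2_nn (y : E 2) : 0 ≤ wt2 y := by
  unfold wt2
  positivity

lemma half_meas : (sg 3).restrict HS = Measure.map up
    ((volume.restrict (ball (0 : E 2) 1)).withDensity fun y => ENNReal.ofReal (wt2 y)) := by
  ext A hA
  have h1 := half_lint (A.indicator 1) (measurable_one.indicator hA)
  have h2 : ∫⁻ x in {x : E 3 | 0 < x 2}, A.indicator 1 x ∂(sg 3) = (sg 3).restrict HS A := by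
    rw [lintegral_indicator_one hA]
    rfl
  rw [← h2, h1, Measure.map_apply up_meas hA, withDensity_apply _ (up_meas hA),
    ← lintegral_indicator (up_meas hA)]
  apply lintegral_congr
  intro y
  by_cases hy : up y ∈ A
  · rw [indicator_of_mem hy, indicator_of_mem (show y ∈ up ⁻¹' A from hy)]
    simp [wt2]
  · rw [indicator_of_notMem hy, indicator_of_notMem (show y ∉ up ⁻¹' A from hy), mul_zero]

lemma half_int (F : E 3 → ℂ) (hF : Measurable F) :
    ∫ x in HS, F x ∂(sg 3) = ∫ y in ball (0 : E 2) 1, ((wt2 y : ℝ) : ℂ) * F (up y) := by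
  rw [half_meas, integral_map up_meas.aemeasurable hF.aestronglyMeasurable,
    integral_withDensity_eq_integral_toReal_smul wt2_meas.ennreal_ofReal
    (ae_of_all _ fun _ => ENNReal.ofReal_lt_top)]
  apply integral_congr_ae
  refine ae_of_all _ fun y => ?_
  simp only
  rw [ENNReal.toReal_ofReal (wt2_nn y), Complex.real_smul]

end Pool.Agent.W770.PC.Half
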