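import Pool.Agent.W770.PC.SphStms
import Pool.Agent.W770.PC.Half

/-!
# Integrals over the cap as integrals over the plane
-/

set_option autoImplicit false

open MeasureTheory Set Filter Topology Metric
open scoped ENNReal NNReal RealInnerProductSpace

namespace Pool.Agent.W770.PC

open Pool.Agent.H789R2.FR (E sg)
open Pool.Agent.W777.DL (up)
open Pool.Agent.W770.PC.Half (HS wt2 half_int)

lemma w770_plane_int (G : E 2 → ℂ) : ∫ y, G y = ∫ p : ℝ × ℝ, G !₂[p.1, p.2] := by
  have h1 : ∫ y : Fin 2 → ℝ, G (WithLp.toLp 2 y) = ∫ x : E 2, G x :=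
    (PiLp.volume_preserving_toLp (Fin 2)).integral_comp
      (MeasurableEquiv.toLp 2 (Fin 2 → ℝ)).measurableEmbedding G
  have h3 := (volume_preserving_finTwoArrow ℝ).symm
  have h4 : ∫ p : ℝ × ℝ, G (WithLp.toLp 2 (MeasurableEquiv.finTwoArrow.symm p)) =
      ∫ y : Fin 2 → ℝ, G (WithLp.toLp 2 y) :=
    h3.integral_comp MeasurableEquiv.finTwoArrow.symm.measurableEmbedding
      (fun y : Fin 2 → ℝ => G (WithLp.toLp 2 y))
  rw [← h1, ← h4]
  apply integral_congr_ae
  refine ae_of_all _ fun q => ?_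
  congr 1

/-- the theorem -/
theorem capint2_thm (h1 : S_hh) : S_capint := by
  obtain ⟨-, hDU, -, hU, -⟩ := h1
  intro g hg hsupp
  have e1 : ∫ x, g x ∂(sg 3) = ∫ x in HS, g x ∂(sg 3) := by
    symm
    apply setIntegral_eq_integral_of_forall_compl_eq_zero
    intro x hx
    by_contra h
    exact hx (hsupp x h).2.2
  have hboxm : MeasurableSet (box 0 (1 / 8)) := measurableSet_Icc.prod measurableSet_Icc
  rw [e1, half_int g hg, ← integral_indicator measurableSet_ball, w770_plane_int,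
    ← integral_indicator hboxm]
  apply integral_congr_ae
  refine ae_of_all _ fun p => ?_
  simp only
  have hn : ‖(!₂[p.1, p.2] : E 2)‖ ^ 2 = p.1 ^ 2 + p.2 ^ 2 := by
    rw [EuclideanSpace.norm_sq_eq]
    simp [Fin.sum_univ_two]
  have hup : up (!₂[p.1, p.2] : E 2) = !₂[p.1, p.2, Real.sqrt (1 - (p.1 ^ 2 + p.2 ^ 2))] := by
    unfold up
    rw [hn]
    rfl
  by_cases hp : p ∈ box 0 (1 / 8)
  · have hp' := hp
    simp only [box, Prod.fst_zero, Prod.snd_zero, zero_sub, zero_add, mem_prod, mem_Icc] at hp'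
    obtain ⟨⟨ha1, ha2⟩, hb1, hb2⟩ := hp'
    have hs1 : p.1 ^ 2 ≤ 1 / 64 := by nlinarith
    have hs2 : p.2 ^ 2 ≤ 1 / 64 := by nlinarith
    have hpU : p ∈ U0 := by
      show p.1 ^ 2 + p.2 ^ 2 < 1 / 2
      linarith
    obtain ⟨hpos, hsq, -, -⟩ := hU p hpU
    have hhh : Real.sqrt (1 - (p.1 ^ 2 + p.2 ^ 2)) = hh p := by
      rw [show 1 - (p.1 ^ 2 + p.2 ^ 2) = hh p ^ 2 by rw [hsq]; ring, Real.sqrt_sq hpos.le]
    have hball : (!₂[p.1, p.2] : E 2) ∈ ball (0 : E 2) 1 := by
      rw [mem_ball_zero_iff]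
      have := norm_nonneg (!₂[p.1, p.2] : E 2)
      nlinarith
    rw [indicator_of_mem hball, indicator_of_mem hp, hup, hhh]
    unfold wt2
    rw [hn, hhh]
    push_cast
    ring
  · rw [indicator_of_notMem hp]
    by_cases hball : (!₂[p.1, p.2] : E 2) ∈ ball (0 : E 2) 1
    · rw [indicator_of_mem hball, hup]
      have : g (!₂[p.1, p.2, Real.sqrt (1 - (p.1 ^ 2 + p.2 ^ 2))] : E 3) = 0 := by
        by_contra h
        obtain ⟨h0, h1, -⟩ := hsupp _ h
        have h0' : |p.1| ≤ 1 / 8 := h0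
        have h1' : |p.2| ≤ 1 / 8 := h1
        apply hp
        rw [abs_le] at h0' h1'
        simp only [box, Prod.fst_zero, Prod.snd_zero, zero_sub, zero_add, mem_prod, mem_Icc]
        exact ⟨h0', h1'⟩
      rw [this, mul_zero]
    · rw [indicator_of_notMem hball]

end Pool.Agent.W770.PC
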