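import Pool.Agent.W770.PC.Asm1
import Pool.Agent.W202.PC.Dpf
import Pool.Agent.W469.PC.HH
import Pool.Agent.W460.PC.Sd
import Pool.Agent.W358.PC.Poly1
import Pool.Agent.W588.PC.SRem1
import Pool.Agent.W490.PC.Srem
import Pool.Agent.W469.PC.Scell
import Pool.Agent.W174.PC.Sfib
import Pool.Agent.W366.PC.Sarea
import Pool.Agent.W762.PC.SZero
import Pool.Agent.W392.PC.Sline
import Pool.Agent.W975.PC.Tb
import Pool.Agent.W571.PC.Hess
import Pool.Agent.W410.PC.STame
import Pool.Agent.W67.PC.Graph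
import Pool.Agent.W770.PC.Capint2
import Pool.Agent.W391.PC.Sph1
import Pool.Agent.W918.PC.Cover
import Pool.Agent.W591.PC.Sph

set_option autoImplicit false

/-! Polynomial chirps on the sphere. -/

namespace Pool.Agent.W770.PC

theorem hh_all : S_hh := Pool.Agent.W469.PC.HH.hh_thm

theorem sd_all : S_sd := Pool.Agent.W460.PC.sd_thm hh_all Pool.Agent.W202.PC.Dpf.dpf_thm der_thm

theorem scell_all : S_scell := Pool.Agent.W469.PC.Scell.scell_thm sd_all
  (srem_thm (srem1_thm Pool.Agent.W358.PC.poly1_thm) hh_all Pool.Agent.W202.PC.Dpf.dpf_thm)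
  hh_all der_thm

theorem stame_all : S_stame := Pool.Agent.W410.PC.stame_thm sd_all scell_all
  (Pool.Agent.W366.PC.sarea_thm (Pool.Agent.W174.PC.sfib_thm sd_all hh_all) sd_all der_thm hh_all)
  (Pool.Agent.W392.PC.Sline.sline_thm sd_all Pool.Agent.W762.PC.szero_thm hh_all der_thm)
  Pool.Agent.W975.PC.tb_thm (hess_thm hh_all der_thm) der_thm
  Pool.Agent.W991.PC.cell_thm hh_all

theorem sph_all : S_sph := Pool.Agent.W591.PC.sph_thm
  (Pool.Agent.W391.PC.Sph1.sph1_thm main_all stame_all (Pool.Agent.W67.PC.graph_thm hh_all)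
    (capint2_thm hh_all) hh_all) cover_thm

end Pool.Agent.W770.PC
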