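import Pool.Agent.W770.PC.Asm2
import Pool.Agent.W240.PC.RieszA
import Pool.Agent.W366.PC.CutR
import Pool.Agent.W239.PC.PolyR

set_option autoImplicit false

/-! Polynomial chirps on polygons. -/

namespace Pool.Agent.W770.PC

theorem polyR_all : S_polyR := Pool.Agent.W239.PC.polyR_thm scale_all
  (Pool.Agent.W366.PC.cutR_thm (Pool.Agent.W240.PC.rieszA_thm Pool.Agent.W685.PC.riesz_thm))

end Pool.Agent.W770.PC
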