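import Pool.Agent.W770.PC.SphStms

set_option autoImplicit false

/-!
Statements on cutting off to half planes and half spaces. Subtask `PC-name` asks for a theorem
`name_thm : S_name`.
-/

open MeasureTheory Set Filter Topology
open scoped ENNReal NNReal RealInnerProductSpace

namespace Pool.Agent.W770.PC

open Pool.Agent.H789R2.FR (E sg)

/-- PC-rieszA: M. Riesz' theorem for an abstract finite measure space -/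
def S_rieszA : Prop :=
  ∀ p : ℝ, 1 < p → ∃ C : ℝ, 0 ≤ C ∧ ∀ (α : Type) (_ : MeasurableSpace α) (ν : Measure α),
    IsFiniteMeasure ν → ∀ (s : α → ℝ) (G : α → ℂ) (M : ℝ), Measurable s → Measurable G →
    (∀ a, |s a| ≤ M) → (∀ a, ‖G a‖ ≤ M) → ∀ c : ℝ, ν {a | s a = c} = 0 →
    ∫⁻ x : ℝ, ‖∫ a in {a | c ≤ s a}, G a * ee (x * s a) ∂ν‖ₑ ^ p ≤
      ENNReal.ofReal C * ∫⁻ x : ℝ, ‖∫ a, G a * ee (x * s a) ∂ν‖ₑ ^ p

/-- the half plane `ω·y ≥ c` -/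
def hp (ω : ℝ × ℝ) (c : ℝ) : Set (ℝ × ℝ) := {y | c ≤ ω.1 * y.1 + ω.2 * y.2}

/-- PC-cutR: cutting off to a half plane -/
def S_cutR : Prop :=
  ∀ p : ℝ, 1 < p → ∃ C : ℝ, 0 ≤ C ∧ ∀ (h : ℝ × ℝ → ℝ) (f : ℝ × ℝ → ℂ) (R M : ℝ),
    Continuous h → Measurable f → (∀ y, ‖f y‖ ≤ M) → (∀ y, y ∉ box 0 R → f y = 0) →
    ∀ (ω : ℝ × ℝ) (c : ℝ), ω.1 ^ 2 + ω.2 ^ 2 = 1 →
    eLpNorm (fun z : (ℝ × ℝ) × ℝ => EE h ((hp ω c).indicator f) z.1 z.2)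
      (ENNReal.ofReal p) volume ≤
    ENNReal.ofReal C * eLpNorm (fun z : (ℝ × ℝ) × ℝ => EE h f z.1 z.2)
      (ENNReal.ofReal p) volume

/-- PC-cutS: cutting off to a half space -/
def S_cutS : Prop :=
  ∀ p : ℝ, 1 < p → ∃ C : ℝ, 0 ≤ C ∧ ∀ (g : E 3 → ℂ) (M : ℝ), Measurable g →
    (∀ x, ‖g x‖ ≤ M) → ∀ (ω : E 3) (c : ℝ), ‖ω‖ = 1 →
    eLpNorm (SF ({x : E 3 | c ≤ ⟪ω, x⟫}.indicator g)) (ENNReal.ofReal p) volume ≤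
      ENNReal.ofReal C * eLpNorm (SF g) (ENNReal.ofReal p) volume

/-- PC-polyR: polynomial chirps on convex polygons with at most `k` (+4) sides -/
def S_polyR : Prop :=
  ∀ (p : ℝ) (D k : ℕ), 3 < p → ∃ K : ℝ, 0 ≤ K ∧ ∀ P : MvPolynomial (Fin 2) ℝ,
    P.totalDegree ≤ D → ∀ (w : ℝ × ℝ) (r : ℝ), 0 < r →
    ∀ (ω : Fin k → ℝ × ℝ) (c : Fin k → ℝ), (∀ j, (ω j).1 ^ 2 + (ω j).2 ^ 2 = 1) →
    eLpNorm (fun z : (ℝ × ℝ) × ℝ => EE (fun y => y.1 ^ 2 + y.2 ^ 2)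
      ((box w r ∩ ⋂ j, hp (ω j) (c j)).indicator (fun y => ee (pf P y))) z.1 z.2)
      (ENNReal.ofReal p) volume ≤ ENNReal.ofReal (K * r ^ (2 - 4 / p))

/-- PC-polyS: polynomial chirps on spherical polygons, intersections of at most `k` half spaces -/
def S_polyS : Prop :=
  ∀ (D k : ℕ) (p : ℝ), 3 < p → ∃ K : ℝ, 0 ≤ K ∧ ∀ P : MvPolynomial (Fin 3) ℝ,
    P.totalDegree ≤ D → ∀ (ω : Fin k → E 3) (c : Fin k → ℝ), (∀ j, ‖ω j‖ = 1) →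
    eLpNorm (SF ((⋂ j, {x : E 3 | c j ≤ ⟪ω j, x⟫}).indicator (pe P)))
      (ENNReal.ofReal p) volume ≤ ENNReal.ofReal K

end Pool.Agent.W770.PC
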