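import Mathlib

set_option autoImplicit false

/-!
# Oscillatory integrals with phase `F(y) + x·y + t h(y)` on the plane: definitions
-/

open MeasureTheory Set Filter Topology
open scoped ENNReal NNReal

namespace Pool.Agent.W770.PC

/-- partial derivative in the first variable -/
noncomputable def d1 (f : ℝ × ℝ → ℝ) (y : ℝ × ℝ) : ℝ := deriv (fun u => f (u, y.2)) y.1

/-- partial derivative in the second variable -/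
noncomputable def d2 (f : ℝ × ℝ → ℝ) (y : ℝ × ℝ) : ℝ := deriv (fun v => f (y.1, v)) y.2

/-- the phase `F + t h` -/
def ph (F h : ℝ × ℝ → ℝ) (t : ℝ) (y : ℝ × ℝ) : ℝ := F y + t * h y

/-- size of the Hessian matrix -/
noncomputable def hess (g : ℝ × ℝ → ℝ) (y : ℝ × ℝ) : ℝ :=
  |d1 (d1 g) y| + |d1 (d2 g) y| + |d2 (d2 g) y|

/-- determinant of the Hessian matrix -/
noncomputable def det2 (g : ℝ × ℝ → ℝ) (y : ℝ × ℝ) : ℝ :=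
  d1 (d1 g) y * d2 (d2 g) y - d1 (d2 g) y ^ 2

/-- the closed square with centre `2^{-a} k` and half side `2^{-a}` -/
def cell (a : ℕ) (k : ℕ × ℕ) : Set (ℝ × ℝ) :=
  Icc (((k.1 : ℝ) - 1) / 2 ^ a) (((k.1 : ℝ) + 1) / 2 ^ a) ×ˢ
    Icc (((k.2 : ℝ) - 1) / 2 ^ a) (((k.2 : ℝ) + 1) / 2 ^ a)

/-- the centre of `cell a k` -/
noncomputable def cen (a : ℕ) (k : ℕ × ℕ) : ℝ × ℝ := ((k.1 : ℝ) / 2 ^ a, (k.2 : ℝ) / 2 ^ a)

/-- indices of the cells of level `a` -/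
def grid (a : ℕ) : Finset (ℕ × ℕ) := Finset.range (2 ^ a + 1) ×ˢ Finset.range (2 ^ a + 1)

/-- a square containing all cells -/
def Om : Set (ℝ × ℝ) := Icc (-1) 2 ×ˢ Icc (-1) 2

/-- the unit square -/
def Sq : Set (ℝ × ℝ) := Icc 0 1 ×ˢ Icc 0 1

/-- integral of the size of the Hessian matrix over a cell -/
noncomputable def NN (g : ℝ × ℝ → ℝ) (a : ℕ) (k : ℕ × ℕ) : ℝ := ∫ y in cell a k, hess g y

/-- integral of the absolute value of the Hessian determinant over a cell -/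
noncomputable def DD (g : ℝ × ℝ → ℝ) (a : ℕ) (k : ℕ × ℕ) : ℝ := ∫ y in cell a k, |det2 g y|

/-- The quantitative hypotheses on the pair `F`, `h`. -/
structure Tame (C : ℝ) (F h : ℝ × ℝ → ℝ) : Prop where
  smF : ContDiff ℝ (⊤ : ℕ∞) F
  smh : ContDiff ℝ (⊤ : ℕ∞) h
  sup2 : ∀ (t : ℝ) (a : ℕ), ∀ k ∈ grid a, ∀ y ∈ cell a k,
    hess (ph F h t) y ≤ C * 4 ^ a * NN (ph F h t) a k
  sup3 : ∀ (t : ℝ) (a : ℕ), ∀ k ∈ grid a, ∀ y ∈ cell a k,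
    |d1 (d1 (d1 (ph F h t))) y| + |d2 (d2 (d2 (ph F h t))) y| ≤ C * 8 ^ a * NN (ph F h t) a k
  double : ∀ (t : ℝ) (a : ℕ), ∀ k ∈ grid (a + 1), ∀ k' ∈ grid a,
    |2 * (k'.1 : ℤ) - k.1| ≤ 2 → |2 * (k'.2 : ℤ) - k.2| ≤ 2 →
    NN (ph F h t) a k' ≤ C * NN (ph F h t) (a + 1) k
  area : ∀ (t : ℝ) (φ : ℝ × ℝ → ℝ≥0∞), Measurable φ →
    ∫⁻ y in Om, φ (d1 (ph F h t) y, d2 (ph F h t) y) * ENNReal.ofReal |det2 (ph F h t) y| ≤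
      ENNReal.ofReal C * ∫⁻ v, φ v
  line11 : ∀ (t : ℝ) (φ : ℝ → ℝ≥0∞), Measurable φ →
    ∫⁻ y in Om, φ (d1 (ph F h t) y) * ENNReal.ofReal |d1 (d1 (ph F h t)) y| ≤
      ENNReal.ofReal C * ∫⁻ v, φ v
  line12 : ∀ (t : ℝ) (φ : ℝ → ℝ≥0∞), Measurable φ →
    ∫⁻ y in Om, φ (d1 (ph F h t) y) * ENNReal.ofReal |d1 (d2 (ph F h t)) y| ≤
      ENNReal.ofReal C * ∫⁻ v, φ v
  line22 : ∀ (t : ℝ) (φ : ℝ → ℝ≥0∞), Measurable φ →
    ∫⁻ y in Om, φ (d2 (ph F h t) y) * ENNReal.ofReal |d2 (d2 (ph F h t)) y| ≤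
      ENNReal.ofReal C * ∫⁻ v, φ v
  time : ∀ y ∈ Om, ∀ L Δ : ℝ, 0 < L → 0 ≤ Δ →
    volume {t : ℝ | L ≤ hess (ph F h t) y ∧ |det2 (ph F h t) y| ≤ Δ} ≤
      ENNReal.ofReal (C * Δ / L)
  tzero : ∀ k ∈ grid 0, volume {t : ℝ | NN (ph F h t) 0 k ≤ 1} ≤ ENNReal.ofReal C

/-- the bump function of the partitions of unity -/
noncomputable def bump (x : ℝ) : ℝ := Real.smoothTransition (x + 1) - Real.smoothTransition x

/-- the bump function adapted to `cell a k` -/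
noncomputable def bet (a : ℕ) (k : ℕ × ℕ) (y : ℝ × ℝ) : ℝ :=
  bump (2 ^ a * y.1 - k.1) * bump (2 ^ a * y.2 - k.2)

open Classical in
/-- sum of the bump functions of the cells which are not flat -/
noncomputable def Nf (g : ℝ × ℝ → ℝ) (a : ℕ) (y : ℝ × ℝ) : ℝ :=
  ∑ k ∈ (grid a).filter (fun k => 1 < NN g a k), bet a k y

/-- product of the functions `Nf` of the levels below `a` -/
noncomputable def gg (g : ℝ × ℝ → ℝ) (a : ℕ) (y : ℝ × ℝ) : ℝ :=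
  ∏ a' ∈ Finset.range a, Nf g a' y

/-- `exp(i x)` -/
noncomputable def ee (x : ℝ) : ℂ := Complex.exp (x * Complex.I)

/-- conditions on the amplitude -/
structure Amp (B : ℝ) (ψ : ℝ × ℝ → ℂ) : Prop where
  sm : ContDiff ℝ (⊤ : ℕ∞) ψ
  supp : ∀ y, y ∉ Sq → ψ y = 0
  b1 : ∀ j ≤ 3, ∀ y : ℝ × ℝ, ‖iteratedDeriv j (fun u => ψ (u, y.2)) y.1‖ ≤ B
  b2 : ∀ j ≤ 3, ∀ y : ℝ × ℝ, ‖iteratedDeriv j (fun v => ψ (y.1, v)) y.2‖ ≤ B

/-- the piece of the oscillatory integral at the cell `(a, k)` -/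
noncomputable def J (ψ : ℝ × ℝ → ℂ) (g : ℝ × ℝ → ℝ) (a : ℕ) (k : ℕ × ℕ) (x : ℝ × ℝ) : ℂ :=
  ∫ y, ψ y * ((gg g a y * bet a k y : ℝ) : ℂ) * ee (g y + x.1 * y.1 + x.2 * y.2)

/-- the dyadic classes: `b = 0` stands for `m ≤ 1`, `b ≥ 1` for `2^(b-1) < m ≤ 2^b` -/
def cls (b : ℕ) (m : ℝ) : Prop := m ≤ 2 ^ b ∧ (b = 0 ∨ 2 ^ b < 2 * m)

open Classical in
/-- flat cells of level `a` with `NN ≥ 1/C`, of class `b` -/
noncomputable def KK (C : ℝ) (g : ℝ × ℝ → ℝ) (a b : ℕ) : Finset (ℕ × ℕ) :=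
  (grid a).filter (fun k => NN g a k ≤ 1 ∧ 1 ≤ C * NN g a k ∧ cls b (DD g a k))

open Classical in
/-- flat cells of level `a` -/
noncomputable def FL (g : ℝ × ℝ → ℝ) (a : ℕ) : Finset (ℕ × ℕ) :=
  (grid a).filter (fun k => NN g a k ≤ 1)

/-- sum of the pieces of level `a` and class `b` -/
noncomputable def uu (C : ℝ) (ψ : ℝ × ℝ → ℂ) (g : ℝ × ℝ → ℝ) (a b : ℕ) (x : ℝ × ℝ) : ℂ :=
  ∑ k ∈ KK C g a b, J ψ g a k x

/-- sum of the pieces of level `0` -/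
noncomputable def uz (ψ : ℝ × ℝ → ℂ) (g : ℝ × ℝ → ℝ) (x : ℝ × ℝ) : ℂ :=
  ∑ k ∈ FL g 0, J ψ g 0 k x

/-- the weight `(1 + q/2^a)^(-3)` -/
noncomputable def wt (a : ℕ) (q : ℝ) : ℝ := ((1 + q / 2 ^ a) ^ 3)⁻¹

/-- size of the gradient of `g + x·y` -/
noncomputable def gr (g : ℝ × ℝ → ℝ) (x y : ℝ × ℝ) : ℝ := |d1 g y + x.1| + |d2 g y + x.2|

/-- the oscillatory integral -/
noncomputable def EE (h : ℝ × ℝ → ℝ) (f : ℝ × ℝ → ℂ) (x : ℝ × ℝ) (t : ℝ) : ℂ :=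
  ∫ y, f y * ee (x.1 * y.1 + x.2 * y.2 + t * h y)

end Pool.Agent.W770.PC
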