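import Pool.Agent.W770.PC.Stms
import Pool.Agent.H789R2.FR.Defs

set_option autoImplicit false

/-!
Statements of the lemmas for the sphere. Subtask `PC-name` asks for a theorem `name_thm : S_name`.
-/

open MeasureTheory Set Filter Topology
open scoped ENNReal NNReal RealInnerProductSpace

namespace Pool.Agent.W770.PC

open Pool.Agent.H789R2.FR (E sg)

/-- a smooth positive function on the line, equal to `r` for `r ≥ 1/2` -/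
noncomputable def chi (r : ℝ) : ℝ :=
  Real.smoothTransition (4 * r - 1) * r + (1 - Real.smoothTransition (4 * r - 1))

/-- a smooth function on the plane, equal to `√(1 - |y|²)` for `|y|² ≤ 1/2` -/
noncomputable def hh (y : ℝ × ℝ) : ℝ := Real.sqrt (chi (1 - y.1 ^ 2 - y.2 ^ 2))

/-- the functions `A + B √(1 - |y|²)` -/
noncomputable def sf (A B : MvPolynomial (Fin 2) ℝ) (y : ℝ × ℝ) : ℝ := pf A y + pf B y * hh y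

/-- open disc -/
def U0 : Set (ℝ × ℝ) := {y | y.1 ^ 2 + y.2 ^ 2 < 1 / 2}

/-- closed square `|y₁|, |y₂| ≤ 3/8` -/
def Dm : Set (ℝ × ℝ) := box 0 (3 / 8)

/-- PC-hh -/
def S_hh : Prop :=
  ContDiff ℝ (⊤ : ℕ∞) hh ∧ Dm ⊆ U0 ∧ IsOpen U0 ∧
  (∀ y ∈ U0, 0 < hh y ∧ hh y ^ 2 = 1 - y.1 ^ 2 - y.2 ^ 2 ∧ d1 hh y * hh y = -y.1 ∧
    d2 hh y * hh y = -y.2) ∧
  ∀ y ∈ Dm, 4 / 5 ≤ hh y ∧ hh y ≤ 1

/-- PC-sd: derivatives of the functions `A + B √(1 - |y|²)` -/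
def S_sd : Prop :=
  ∀ (D : ℕ) (A B : MvPolynomial (Fin 2) ℝ), A.totalDegree ≤ D → B.totalDegree ≤ D →
    ContDiff ℝ (⊤ : ℕ∞) (sf A B) ∧
    (∀ t : ℝ, ph (sf A B) hh t = sf A (B + MvPolynomial.C t) ∧
      (B + MvPolynomial.C t).totalDegree ≤ D) ∧
    (∃ A1 B1 A2 B2 : MvPolynomial (Fin 2) ℝ, A1.totalDegree ≤ D + 4 ∧ B1.totalDegree ≤ D + 4 ∧
      A2.totalDegree ≤ D + 4 ∧ B2.totalDegree ≤ D + 4 ∧
      ∀ y ∈ U0, hh y * d1 (sf A B) y = sf A1 B1 y ∧ hh y * d2 (sf A B) y = sf A2 B2 y) ∧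
    ∃ A11 B11 A12 B12 A22 B22 : MvPolynomial (Fin 2) ℝ,
      A11.totalDegree ≤ D + 4 ∧ B11.totalDegree ≤ D + 4 ∧ A12.totalDegree ≤ D + 4 ∧
      B12.totalDegree ≤ D + 4 ∧ A22.totalDegree ≤ D + 4 ∧ B22.totalDegree ≤ D + 4 ∧
      ∀ y ∈ U0, hh y ^ 3 * d1 (d1 (sf A B)) y = sf A11 B11 y ∧
        hh y ^ 3 * d1 (d2 (sf A B)) y = sf A12 B12 y ∧
        hh y ^ 3 * d2 (d2 (sf A B)) y = sf A22 B22 y

/-- PC-poly1: norm equivalence for polynomials of one variable -/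
def S_poly1 : Prop :=
  ∀ D : ℕ, ∃ C : ℝ, 0 ≤ C ∧ ∀ q : Polynomial ℝ, q.natDegree ≤ D → ∀ w ρ : ℝ, 0 < ρ →
    ∀ u : ℝ, |u - w| ≤ 16 * ρ →
      |q.eval u| ≤ C / ρ * ∫ v in Icc (w - ρ) (w + ρ), |q.eval v| ∧
      |q.derivative.eval u| ≤ C / ρ ^ 2 * ∫ v in Icc (w - ρ) (w + ρ), |q.eval v|

/-- `a(u) + b(u) √(c - u²)` -/
noncomputable def rt (a b : Polynomial ℝ) (c u : ℝ) : ℝ := a.eval u + b.eval u * Real.sqrt (c - u ^ 2)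

/-- PC-srem1 -/
def S_srem1 : Prop :=
  ∀ D : ℕ, ∃ C : ℝ, 0 ≤ C ∧ ∀ a b : Polynomial ℝ, a.natDegree ≤ D → b.natDegree ≤ D →
    ∀ c : ℝ, 3 / 4 ≤ c → c ≤ 1 → ∀ w r : ℝ, 0 < r → |w| + r ≤ 3 / 8 →
    ∀ u : ℝ, |u| ≤ 3 / 8 → |u - w| ≤ 8 * r →
      |rt a b c u| ≤ C / r * ∫ v in Icc (w - r) (w + r), |rt a b c v| ∧
      |deriv (rt a b c) u| ≤ C / r ^ 2 * ∫ v in Icc (w - r) (w + r), |rt a b c v|

/-- PC-srem -/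
def S_srem : Prop :=
  ∀ D : ℕ, ∃ C : ℝ, 0 ≤ C ∧ ∀ A B : MvPolynomial (Fin 2) ℝ, A.totalDegree ≤ D →
    B.totalDegree ≤ D → ∀ (w : ℝ × ℝ) (r : ℝ), 0 < r → |w.1| + r ≤ 3 / 8 → |w.2| + r ≤ 3 / 8 →
    ∀ y ∈ Dm, y ∈ box w (8 * r) →
      |sf A B y| ≤ C / r ^ 2 * ∫ v in box w r, |sf A B v| ∧
      |d1 (sf A B) y| ≤ C / r ^ 3 * ∫ v in box w r, |sf A B v| ∧
      |d2 (sf A B) y| ≤ C / r ^ 3 * ∫ v in box w r, |sf A B v|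

/-- PC-scell -/
def S_scell : Prop :=
  ∀ D : ℕ, ∃ C : ℝ, 0 ≤ C ∧ ∀ A B : MvPolynomial (Fin 2) ℝ, A.totalDegree ≤ D →
    B.totalDegree ≤ D → ∀ (w : ℝ × ℝ) (r : ℝ), 0 < r → |w.1| + r ≤ 3 / 8 → |w.2| + r ≤ 3 / 8 →
    ∀ y ∈ Dm, y ∈ box w (8 * r) →
      hess (sf A B) y ≤ C / r ^ 2 * ∫ v in box w r, hess (sf A B) v ∧
      |d1 (d1 (d1 (sf A B))) y| + |d2 (d2 (d2 (sf A B))) y| ≤
        C / r ^ 3 * ∫ v in box w r, hess (sf A B) v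

/-- PC-sfib: almost all fibres of the gradient map are finite with a uniform bound -/
def S_sfib : Prop :=
  ∀ D : ℕ, ∃ N : ℕ, ∀ A B : MvPolynomial (Fin 2) ℝ, A.totalDegree ≤ D → B.totalDegree ≤ D →
    ∀ᵐ v : ℝ × ℝ, {y : ℝ × ℝ | y ∈ U0 ∧ (d1 (sf A B) y, d2 (sf A B) y) = v}.encard ≤ N

/-- PC-sarea -/
def S_sarea : Prop :=
  ∀ D : ℕ, ∃ C : ℝ, 0 ≤ C ∧ ∀ A B : MvPolynomial (Fin 2) ℝ, A.totalDegree ≤ D →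
    B.totalDegree ≤ D → ∀ φ : ℝ × ℝ → ℝ≥0∞, Measurable φ →
    ∫⁻ y in Dm, φ (d1 (sf A B) y, d2 (sf A B) y) * ENNReal.ofReal |det2 (sf A B) y| ≤
      ENNReal.ofReal C * ∫⁻ v, φ v

/-- PC-szero: zeros of `a(u) + b(u) √(c - u²)` -/
def S_szero : Prop :=
  ∀ (D : ℕ) (a b : Polynomial ℝ), a.natDegree ≤ D → b.natDegree ≤ D → ∀ c : ℝ, 0 < c →
    (∀ u : ℝ, u ^ 2 < c → rt a b c u = 0) ∨
    {u : ℝ | u ^ 2 < c ∧ rt a b c u = 0}.encard ≤ (2 * D + 2 : ℕ)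

/-- PC-sline -/
def S_sline : Prop :=
  ∀ D : ℕ, ∃ C : ℝ, 0 ≤ C ∧ ∀ A B : MvPolynomial (Fin 2) ℝ, A.totalDegree ≤ D →
    B.totalDegree ≤ D → ∀ φ : ℝ → ℝ≥0∞, Measurable φ →
    ∫⁻ y in Dm, φ (d1 (sf A B) y) * ENNReal.ofReal |d1 (d1 (sf A B)) y| ≤
      ENNReal.ofReal C * ∫⁻ v, φ v ∧
    ∫⁻ y in Dm, φ (d1 (sf A B) y) * ENNReal.ofReal |d1 (d2 (sf A B)) y| ≤
      ENNReal.ofReal C * ∫⁻ v, φ v ∧
    ∫⁻ y in Dm, φ (d2 (sf A B) y) * ENNReal.ofReal |d2 (d2 (sf A B)) y| ≤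
      ENNReal.ofReal C * ∫⁻ v, φ v

/-- PC-tb: as PC-tq, for a positive definite matrix `b` -/
def S_tb : Prop :=
  ∀ p q r b11 b12 b22 L Δ : ℝ, 0 < L → 0 ≤ Δ → 0 < b11 → 0 < b22 → b11 ≤ 2 → b22 ≤ 2 →
    |b12| ≤ 1 → 1 ≤ b11 * b22 - b12 ^ 2 →
    volume {t : ℝ | L ≤ |p + t * b11| + |q + t * b12| + |r + t * b22| ∧
      |(p + t * b11) * (r + t * b22) - (q + t * b12) ^ 2| ≤ Δ} ≤ ENNReal.ofReal (100 * Δ / L)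

/-- PC-hess: the Hessian matrix of `-√(1-|y|²)` -/
def S_hess : Prop :=
  ∀ y ∈ Dm, 0 < -d1 (d1 hh) y ∧ 0 < -d2 (d2 hh) y ∧ -d1 (d1 hh) y ≤ 2 ∧ -d2 (d2 hh) y ≤ 2 ∧
    |d1 (d2 hh) y| ≤ 1 ∧ 1 ≤ det2 hh y ∧ 1 ≤ -d1 (d1 hh) y

/-- the affine map from the unit square to `|y₁|, |y₂| ≤ 1/8` -/
noncomputable def sc (z : ℝ × ℝ) : ℝ × ℝ := ((z.1 - 1 / 2) / 4, (z.2 - 1 / 2) / 4)

/-- PC-stame: the phases of the sphere are tame -/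
def S_stame : Prop :=
  ∀ D : ℕ, ∃ C : ℝ, ∀ A B : MvPolynomial (Fin 2) ℝ, A.totalDegree ≤ D → B.totalDegree ≤ D →
    Tame C (fun z => sf A B (sc z)) (fun z => hh (sc z))

/-- PC-graph: polynomials on the sphere -/
def S_graph : Prop :=
  ∀ (D : ℕ) (P : MvPolynomial (Fin 3) ℝ), P.totalDegree ≤ D →
    ∃ A B : MvPolynomial (Fin 2) ℝ, A.totalDegree ≤ D ∧ B.totalDegree ≤ D ∧
      ∀ y ∈ U0, MvPolynomial.eval ![y.1, y.2, hh y] P = sf A B y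

/-- smooth functions supported over the cap -/
def CapF (χ : E 3 → ℝ) : Prop :=
  ContDiff ℝ (⊤ : ℕ∞) χ ∧ ∀ x : E 3, χ x ≠ 0 → |x 0| ≤ 1 / 8 ∧ |x 1| ≤ 1 / 8 ∧ 0 < x 2

/-- Fourier transform of the measure `g dσ` on the unit sphere -/
noncomputable def SF (g : E 3 → ℂ) (ξ : E 3) : ℂ :=
  ∫ x, ee (-(2 * Real.pi * ⟪x, ξ⟫)) * g x ∂(sg 3)

/-- `exp(i P(x))` -/
noncomputable def pe (P : MvPolynomial (Fin 3) ℝ) (x : E 3) : ℂ :=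
  ee (MvPolynomial.eval (fun i => x i) P)

/-- PC-capint: integrals over the cap as integrals over the plane -/
def S_capint : Prop :=
  ∀ g : E 3 → ℂ, Measurable g → (∀ x : E 3, g x ≠ 0 → |x 0| ≤ 1 / 8 ∧ |x 1| ≤ 1 / 8 ∧ 0 < x 2) →
    ∫ x, g x ∂(sg 3) =
      ∫ y : ℝ × ℝ in box 0 (1 / 8), g (!₂[y.1, y.2, hh y] : E 3) / ((hh y : ℝ) : ℂ)

/-- PC-sph1: polynomial chirps with a smooth cutoff to the cap -/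
def S_sph1 : Prop :=
  ∀ (D : ℕ) (p : ℝ) (χ : E 3 → ℝ), 3 < p → CapF χ → ∃ K : ℝ, 0 ≤ K ∧
    ∀ P : MvPolynomial (Fin 3) ℝ, P.totalDegree ≤ D →
    eLpNorm (SF (fun x => ((χ x : ℝ) : ℂ) * pe P x)) (ENNReal.ofReal p) volume ≤
      ENNReal.ofReal K

/-- PC-cover: partition of unity by rotated caps -/
def S_cover : Prop :=
  ∃ (n : ℕ) (ρ : Fin n → (E 3 ≃ₗᵢ[ℝ] E 3)) (χ : Fin n → E 3 → ℝ), (∀ i, CapF (χ i)) ∧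
    ∀ x : E 3, ‖x‖ = 1 → ∑ i, χ i ((ρ i).symm x) = 1

/-- PC-sph: all polynomial chirps on the sphere -/
def S_sph : Prop :=
  ∀ (D : ℕ) (p : ℝ), 3 < p → ∃ K : ℝ, 0 ≤ K ∧
    ∀ P : MvPolynomial (Fin 3) ℝ, P.totalDegree ≤ D →
    eLpNorm (SF (pe P)) (ENNReal.ofReal p) volume ≤ ENNReal.ofReal K

end Pool.Agent.W770.PC
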